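import Pool.Agent.TH679.PL.Asym

/-!
The asymptotic form of the bounds
-/

set_option autoImplicit false

namespace Pool.Agent.TH679.SP

open Filter Asymptotics
open Pool.Agent.TH679.PL (kap kap_ge clog_le_logb)

theorem exists_large (c ε : ℝ) (hε : 0 < ε) (hc : 0 < c) : ∃ d₀ : ℝ, ∀ x : ℝ, d₀ ≤ x →
    x ^ (3 * c + 3) ≤ (2 : ℝ) ^ (ε / (2 * c) * x) ∧ 64 ≤ x ∧ ε / (8 * c ^ 2) + 2 ≤ x ∧
      64 * x ^ 2 ≤ (2 : ℝ) ^ x ∧ (ε / (2 * c) + 1) / (ε / (8 * c ^ 2)) < x ∧ 4 ≤ x ^ c := by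
  have hb : 0 < ε / (2 * c) * Real.log 2 := mul_pos (by positivity) (Real.log_pos (by norm_num))
  have h1 := (isLittleO_rpow_exp_pos_mul_atTop (3 * c + 3) hb).bound (c := 1) one_pos
  have h2 : (fun x : ℝ => 64 * x ^ 2) =o[atTop] fun x => Real.exp (Real.log 2 * x) :=
    (isLittleO_pow_exp_pos_mul_atTop 2 (Real.log_pos (by norm_num))).const_mul_left 64
  have h3 := h2.bound (c := 1) one_pos
  have h4 : ∀ᶠ x : ℝ in atTop, 4 ≤ x ^ c := (tendsto_rpow_atTop hc).eventually_ge_atTop 4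
  have hall := h1.and (h3.and (h4.and ((eventually_ge_atTop (64 : ℝ)).and
    ((eventually_ge_atTop (ε / (8 * c ^ 2) + 2)).and
      (eventually_gt_atTop ((ε / (2 * c) + 1) / (ε / (8 * c ^ 2))))))))
  obtain ⟨d₀, hd₀⟩ := eventually_atTop.1 hall
  refine ⟨d₀, fun x hx => ?_⟩
  obtain ⟨a1, a2, a3, a4, a5, a6⟩ := hd₀ x hx
  refine ⟨?_, a4, a5, ?_, a6, a3⟩
  · rw [one_mul, Real.norm_eq_abs, Real.norm_eq_abs, abs_of_pos (Real.exp_pos _)] at a1
    have h5 := (le_abs_self _).trans a1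
    refine h5.trans (le_of_eq ?_)
    rw [Real.rpow_def_of_pos (by norm_num)]
    congr 1
    ring
  · rw [one_mul, Real.norm_eq_abs, Real.norm_eq_abs, abs_of_pos (Real.exp_pos _)] at a2
    have h5 := (le_abs_self _).trans a2
    refine h5.trans (le_of_eq ?_)
    rw [Real.rpow_def_of_pos (by norm_num)]

theorem arith1 {A B x κ c ε : ℝ} (hA : A = ε / (2 * c)) (hB : B = ε / (8 * c ^ 2)) (hc : 0 < c)
    (hε : 0 < ε) (hx : 1 ≤ x) (h : A * x * (x / c / 2 - 1) ≤ A * x * κ)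
    (h' : A * x * κ ≤ 1 + B * x ^ 2) (h3 : (A + 1) / B < x) : False := by
  have hB0 : 0 < B := by rw [hB]; positivity
  rw [div_lt_iff₀ hB0] at h3
  have h4 : A * x * (x / c / 2 - 1) = 2 * B * x ^ 2 - A * x := by
    rw [hA, hB]
    field_simp
    ring
  have h5 : B * x ^ 2 ≤ 1 + A * x := by linarith
  have h6 : (A + 1) * x < x * B * x := mul_lt_mul_of_pos_right h3 (by linarith)
  nlinarith

theorem arith2 {η x lc lL y : ℝ} (h1 : lc ≤ 1 + lL) (h2 : lL ≤ η * x ^ 2)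
    (h3 : x ^ 2 * (η + 2) ≤ y) (h4 : 1 ≤ x ^ 2) : lc + 1 ≤ y := by
  have h5 : x ^ 2 * (η + 2) = η * x ^ 2 + 2 * x ^ 2 := by ring
  rw [h5] at h3
  linarith

/-- The asymptotic form of the bounds. -/
theorem asym {c ε : ℝ} (hε : 0 < ε) (hεc : ε ≤ c) {d₀ : ℝ}
    (hd₀ : ∀ x : ℝ, d₀ ≤ x →
      x ^ (3 * c + 3) ≤ (2 : ℝ) ^ (ε / (2 * c) * x) ∧ 64 ≤ x ∧ ε / (8 * c ^ 2) + 2 ≤ x ∧
      64 * x ^ 2 ≤ (2 : ℝ) ^ x ∧ (ε / (2 * c) + 1) / (ε / (8 * c ^ 2)) < x ∧ 4 ≤ x ^ c)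
    {d n S N : ℕ} (hd : d₀ ≤ (d : ℝ)) (hn : n = ⌈(2 : ℝ) ^ ((d : ℝ) / c)⌉₊)
    (hS : S = 4 * d * d * n) (hN : N = 8 * S) :
    (∀ K L : ℕ, 1 ≤ L → (K : ℝ) ≤ (N : ℝ) ^ (c - ε) →
      (2 ^ d) ^ kap n ≤ 2 * L * ((Nat.clog 2 L + 1) * K) ^ kap n →
      (N : ℝ) ^ (ε / (8 * (c + 1) ^ 2) * Real.logb 2 N) ≤ L) ∧
    (2 * 2 ^ d + 2 : ℝ) ≤ (N : ℝ) ^ c ∧
    (3 * (7 * (S * 2 ^ d) + 2 * 2 ^ d + 1) : ℝ) ≤ (N : ℝ) ^ (c + 1) := by
  obtain ⟨g1, g2, g3, g4, g5, g6⟩ := hd₀ d hd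
  have hc : 0 < c := lt_of_lt_of_le hε hεc
  have hd0 : (0 : ℝ) < d := by linarith
  obtain ⟨X, hX⟩ : ∃ X, X = (2 : ℝ) ^ ((d : ℝ) / c) := ⟨_, rfl⟩
  rw [← hX] at hn
  have hX1 : (1 : ℝ) ≤ X := by rw [hX]; exact Real.one_le_rpow (by norm_num) (by positivity)
  have hX0 : 0 < X := by linarith
  have hn1 : X ≤ n := by rw [hn]; exact Nat.le_ceil _
  have hn2 : (n : ℝ) ≤ 2 * X := by
    have := Nat.ceil_lt_add_one (a := X) hX0.le
    rw [← hn] at this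
    linarith
  have hSr : (S : ℝ) = 4 * d ^ 2 * n := by
    rw [hS]
    push_cast
    ring
  have hNr : (N : ℝ) = 32 * d ^ 2 * n := by
    rw [hN]
    push_cast
    rw [hSr]
    ring
  have hNle : (N : ℝ) ≤ 64 * d ^ 2 * X := by
    rw [hNr]
    have e1 : (32 : ℝ) * d ^ 2 * n ≤ 32 * d ^ 2 * (2 * X) :=
      mul_le_mul_of_nonneg_left hn2 (by positivity)
    linarith
  have hNge : 32 * d ^ 2 * X ≤ (N : ℝ) := by
    rw [hNr]
    exact mul_le_mul_of_nonneg_left hn1 (by positivity)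
  have hN1 : (1 : ℝ) ≤ N := by
    have e0 : (1 : ℝ) ≤ (d : ℝ) ^ 2 := one_le_pow₀ (by linarith)
    have e1 : (1 : ℝ) ≤ 32 * d ^ 2 := by linarith
    calc (1 : ℝ) ≤ 32 * d ^ 2 * X := one_le_mul_of_one_le_of_one_le e1 hX1
      _ ≤ N := hNge
  have hN0 : (0 : ℝ) < N := by linarith
  have hXc : X ^ c = (2 : ℝ) ^ (d : ℝ) := by
    rw [hX, ← Real.rpow_mul (by norm_num)]
    congr 1
    field_simp
  have hNc : 4 * (2 : ℝ) ^ (d : ℝ) ≤ (N : ℝ) ^ c := by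
    have e1 : (d * X) ^ c ≤ (N : ℝ) ^ c := by
      refine Real.rpow_le_rpow (by positivity) (le_trans ?_ hNge) hc.le
      refine mul_le_mul_of_nonneg_right ?_ hX0.le
      have e0 : (d : ℝ) * 1 ≤ d * d := mul_le_mul_of_nonneg_left (by linarith) hd0.le
      have e2 : (d : ℝ) ^ 2 = d * d := sq _
      rw [e2]
      linarith
    rw [Real.mul_rpow hd0.le hX0.le, hXc] at e1
    exact (mul_le_mul_of_nonneg_right g6 (by positivity)).trans e1
  have h2d : ((2 : ℝ) ^ d) = (2 : ℝ) ^ (d : ℝ) := (Real.rpow_natCast 2 d).symm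
  have h2d1 : (1 : ℝ) ≤ 2 ^ (d : ℝ) := Real.one_le_rpow (by norm_num) hd0.le
  refine ⟨?_, ?_, ?_⟩
  · obtain ⟨ν, hν⟩ : ∃ ν, ν = Real.logb 2 N := ⟨_, rfl⟩
    have hN2 : (N : ℝ) = 2 ^ ν := by
      rw [hν]
      exact (Real.rpow_logb (by norm_num) (by norm_num) hN0).symm
    have hν0 : 0 ≤ ν := by rw [hν]; exact Real.logb_nonneg (by norm_num) hN1
    have hν2 : ν ≤ (c + 1) / c * d := by
      have e1 : (2 : ℝ) ^ ν ≤ 2 ^ ((c + 1) / c * d) := by
        rw [← hN2]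
        refine hNle.trans ?_
        have e2 : (2 : ℝ) ^ ((c + 1) / c * d) = 2 ^ (d : ℝ) * X := by
          rw [hX, ← Real.rpow_add (by norm_num)]
          congr 1
          field_simp
        rw [e2]
        exact mul_le_mul_of_nonneg_right g4 hX0.le
      exact (Real.rpow_le_rpow_left_iff (by norm_num)).1 e1
    intro K L hL hK hlaw
    by_contra hlt
    push Not at hlt
    rw [← hν] at hlt
    have hL0 : (0 : ℝ) < L := by exact_mod_cast hL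
    obtain ⟨η, hη⟩ : ∃ η, η = ε / (8 * c ^ 2) := ⟨_, rfl⟩
    obtain ⟨θ, hθ⟩ : ∃ θ, θ = ε / (2 * c) := ⟨_, rfl⟩
    rw [← hη] at g3 g5
    rw [← hθ] at g1 g5
    have hη0 : 0 < η := by rw [hη]; positivity
    have hθ0 : 0 < θ := by rw [hθ]; positivity
    -- the number of steps
    have hLlog : Real.logb 2 L ≤ η * (d : ℝ) ^ 2 := by
      have e1 : (L : ℝ) ≤ 2 ^ (ε / (8 * (c + 1) ^ 2) * ν ^ 2) := by
        refine hlt.le.trans (le_of_eq ?_)
        rw [hN2, ← Real.rpow_mul (by norm_num)]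
        congr 1
        ring
      have e2 : Real.logb 2 L ≤ ε / (8 * (c + 1) ^ 2) * ν ^ 2 := by
        rw [Real.logb_le_iff_le_rpow (by norm_num) hL0]
        exact e1
      have e3 : ν ^ 2 ≤ ((c + 1) / c * d) ^ 2 := pow_le_pow_left₀ hν0 hν2 2
      have e4 : ε / (8 * (c + 1) ^ 2) * ν ^ 2 ≤
          ε / (8 * (c + 1) ^ 2) * ((c + 1) / c * d) ^ 2 :=
        mul_le_mul_of_nonneg_left e3 (by positivity)
      refine (e2.trans e4).trans (le_of_eq ?_)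
      rw [hη]
      have : c + 1 ≠ 0 := by linarith
      field_simp
    have hclog : (Nat.clog 2 L : ℝ) + 1 ≤ (d : ℝ) ^ (3 : ℝ) := by
      have e1 := clog_le_logb hL
      have e2 : (d : ℝ) ^ (3 : ℝ) = (d : ℝ) ^ 2 * d := by
        rw [show (3 : ℝ) = ((3 : ℕ) : ℝ) by norm_num, Real.rpow_natCast]
        ring
      have e3 : (d : ℝ) ^ 2 * (η + 2) ≤ (d : ℝ) ^ 2 * d :=
        mul_le_mul_of_nonneg_left g3 (by positivity)
      have e4 : (1 : ℝ) ≤ (d : ℝ) ^ 2 := one_le_pow₀ (by linarith)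
      rw [e2]
      exact arith2 e1 hLlog e3 e4
    -- the number of registers
    have hKle : (K : ℝ) ≤ (d : ℝ) ^ (3 * c) * 2 ^ (d - 2 * θ * d) := by
      refine hK.trans ?_
      have e0 : (N : ℝ) ^ (c - ε) ≤ ((d : ℝ) ^ (3 : ℝ) * X) ^ (c - ε) := by
        refine Real.rpow_le_rpow hN0.le (hNle.trans ?_) (by linarith)
        refine mul_le_mul_of_nonneg_right ?_ hX0.le
        rw [show (3 : ℝ) = ((3 : ℕ) : ℝ) by norm_num, Real.rpow_natCast, pow_succ (d : ℝ) 2,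
          mul_comm]
        exact mul_le_mul_of_nonneg_left g2 (by positivity)
      refine e0.trans ?_
      rw [Real.mul_rpow (by positivity) hX0.le, ← Real.rpow_mul hd0.le]
      refine mul_le_mul ?_ (le_of_eq ?_) (by positivity) (by positivity)
      · exact Real.rpow_le_rpow_of_exponent_le (by linarith) (by linarith)
      · rw [hX, ← Real.rpow_mul (by norm_num), hθ]
        congr 1
        field_simp
    have hx : ((((Nat.clog 2 L + 1) * K : ℕ)) : ℝ) ≤ 2 ^ (d - θ * d) := by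
      push_cast
      have e1 : ((Nat.clog 2 L : ℝ) + 1) * K ≤
          (d : ℝ) ^ (3 : ℝ) * ((d : ℝ) ^ (3 * c) * 2 ^ (d - 2 * θ * d)) :=
        mul_le_mul hclog hKle (by positivity) (by positivity)
      refine e1.trans ?_
      have e2 : (d : ℝ) ^ (3 : ℝ) * ((d : ℝ) ^ (3 * c) * 2 ^ (d - 2 * θ * d)) =
          (d : ℝ) ^ (3 * c + 3) * 2 ^ (d - 2 * θ * d) := by
        rw [Real.rpow_add hd0]
        ring
      rw [e2]
      have e3 : (2 : ℝ) ^ (d - θ * d) = 2 ^ (θ * d) * 2 ^ (d - 2 * θ * d) := by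
        rw [← Real.rpow_add (by norm_num)]
        congr 1
        ring
      rw [e3]
      exact mul_le_mul_of_nonneg_right g1 (by positivity)
    -- the law
    obtain ⟨κ, hκ⟩ : ∃ κ, κ = kap n := ⟨_, rfl⟩
    rw [← hκ] at hlaw
    have hlaw' : ((2 : ℝ) ^ (d : ℝ)) ^ κ ≤ 2 * L * (2 ^ (d - θ * d)) ^ κ := by
      have e1 : (((2 ^ d) ^ κ : ℕ) : ℝ) ≤
          ((2 * L * ((Nat.clog 2 L + 1) * K) ^ κ : ℕ) : ℝ) := by
        exact_mod_cast hlaw
      rw [Nat.cast_pow, Nat.cast_pow, Nat.cast_mul, Nat.cast_pow, Nat.cast_mul, Nat.cast_ofNat,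
        h2d] at e1
      refine e1.trans (mul_le_mul_of_nonneg_left ?_ (by positivity))
      exact pow_le_pow_left₀ (Nat.cast_nonneg _) hx κ
    have hfin : θ * d * κ ≤ 1 + η * (d : ℝ) ^ 2 := by
      have e1 : ((2 : ℝ) ^ (d : ℝ)) ^ κ = 2 ^ (θ * d * κ) * (2 ^ (d - θ * d)) ^ κ := by
        rw [← Real.rpow_natCast, ← Real.rpow_natCast, ← Real.rpow_mul (by norm_num),
          ← Real.rpow_mul (by norm_num), ← Real.rpow_add (by norm_num)]
        congr 1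
        ring
      rw [e1] at hlaw'
      have e2 : (2 : ℝ) ^ (θ * d * κ) ≤ 2 * L := le_of_mul_le_mul_right hlaw' (by positivity)
      have e3 : Real.logb 2 ((2 : ℝ) ^ (θ * d * κ)) ≤ Real.logb 2 (2 * L) :=
        Real.logb_le_logb_of_le (by norm_num) (by positivity) e2
      rw [Real.logb_rpow (by norm_num) (by norm_num), Real.logb_mul (by norm_num) hL0.ne',
        Real.logb_self_eq_one (by norm_num)] at e3
      linarith
    have hκge : (d : ℝ) / c / 2 - 1 ≤ κ := by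
      rw [hκ]
      refine kap_ge ?_
      rw [← hX]
      exact hn1
    exact arith1 hθ hη hc hε (by linarith)
      (mul_le_mul_of_nonneg_left hκge (by positivity)) hfin g5
  · rw [h2d]
    linarith
  · rw [h2d, Real.rpow_add hN0, Real.rpow_one]
    have e1 : (N : ℝ) = 8 * S := by rw [hN]; push_cast; ring
    have hS1 : (1 : ℝ) ≤ S := by
      rw [hSr]
      have e0 : (1 : ℝ) ≤ (d : ℝ) ^ 2 := one_le_pow₀ (by linarith)
      have : (1 : ℝ) ≤ 4 * d ^ 2 := by linarith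
      exact one_le_mul_of_one_le_of_one_le this (hX1.trans hn1)
    have e2 : 4 * (2 : ℝ) ^ (d : ℝ) * (8 * S) ≤ (N : ℝ) ^ c * N := by
      rw [← e1]
      exact mul_le_mul_of_nonneg_right hNc hN0.le
    refine le_trans ?_ e2
    have e3 : (2 : ℝ) ^ (d : ℝ) ≤ S * 2 ^ (d : ℝ) :=
      le_mul_of_one_le_left (by positivity) hS1
    have e4 : (1 : ℝ) ≤ S * 2 ^ (d : ℝ) := h2d1.trans e3
    linarith

end Pool.Agent.TH679.SP
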