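import Pool.Agent.TH679.DB.Main
import Pool.Agent.TH679.DB.Upper
import Pool.Agent.TH679.SP.Main

/-!
The upper bound: vertex by vertex
-/

set_option autoImplicit false
set_option linter.unusedSectionVars false

namespace Pool.Agent.TH679.SP

open Finset
open Pool.Agent.H564R3.PW (Instr runs exec)
open Pool.Agent.TH679.DB (Word Shift Path Edge pe pathSum inE runs_append' upper)

section Subst

variable {R : Type} [CommSemiring R] {X Y ρ : Type} [DecidableEq ρ]

/-- the instructions for an instruction whose variables are products of two variables -/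
def tr (σ : X → Y × Y) : Instr R X ρ → List (Instr R Y (Option ρ))
  | Instr.load r x => [Instr.load (some r) (σ x).1, Instr.load none (σ x).2,
      Instr.mul (some r) (some r) none]
  | Instr.const r c => [Instr.const (some r) c]
  | Instr.add r a b => [Instr.add (some r) (some a) (some b)]
  | Instr.mul r a b => [Instr.mul (some r) (some a) (some b)]

theorem tr_length (σ : X → Y × Y) (a : Instr R X ρ) : (tr σ a).length ≤ 3 := by
  cases a <;> simp [tr]

theorem tr_run (w : Y → R) (σ : X → Y × Y) (a : Instr R X ρ) (V : Option ρ → R) (r : ρ) :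
    runs w (tr σ a) V (some r) =
      a.run (fun x => w (σ x).1 * w (σ x).2) (fun r => V (some r)) r := by
  have h1 : ∀ (W : Option ρ → R) (i r : ρ) (c : R), Function.update W (some i) c (some r) =
      Function.update (fun r => W (some r)) i c r := by
    intro W i r c
    by_cases h : r = i
    · rw [h, Function.update_self, Function.update_self]
    · rw [Function.update_of_ne h, Function.update_of_ne (fun h' => h (Option.some_injective _ h'))]
  cases a with
  | load i x =>
    unfold runs tr
    simp only [List.foldl_cons, List.foldl_nil, Instr.run]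
    rw [h1, Function.update_self, Function.update_of_ne (Option.some_ne_none i),
      Function.update_self]
    by_cases h : r = i
    · rw [h, Function.update_self, Function.update_self]
    · rw [Function.update_of_ne h, Function.update_of_ne h,
        Function.update_of_ne (Option.some_ne_none r),
        Function.update_of_ne (fun h' => h (Option.some_injective _ h'))]
  | const i c =>
    unfold runs tr
    simp only [List.foldl_cons, List.foldl_nil, Instr.run]
    rw [h1]
  | add i j k =>
    unfold runs tr
    simp only [List.foldl_cons, List.foldl_nil, Instr.run]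
    rw [h1]
  | mul i j k =>
    unfold runs tr
    simp only [List.foldl_cons, List.foldl_nil, Instr.run]
    rw [h1]

theorem subst_run (w : Y → R) (σ : X → Y × Y) : ∀ (p : List (Instr R X ρ)) (V : Option ρ → R)
    (r : ρ), runs w (p.flatMap (tr σ)) V (some r) =
      runs (fun x => w (σ x).1 * w (σ x).2) p (fun r => V (some r)) r := by
  intro p
  induction p with
  | nil => intro V r; rfl
  | cons a p ih =>
    intro V r
    rw [List.flatMap_cons, runs_append', ih]
    have h1 : (fun r => runs w (tr σ a) V (some r)) =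
        a.run (fun x => w (σ x).1 * w (σ x).2) (fun r => V (some r)) := by
      funext r
      exact tr_run w σ a V r
    rw [h1]
    rfl

theorem subst_length (σ : X → Y × Y) (p : List (Instr R X ρ)) :
    (p.flatMap (tr σ)).length ≤ 3 * p.length := by
  have h := Pool.Agent.TH679.DB.flatMap_length_le (tr (R := R) (ρ := ρ) σ) 3 (tr_length σ) p
  omega

end Subst

theorem in_le {m d : ℕ} (hd : 1 ≤ d) (v : Word m d) :
    (Finset.univ.filter fun u : Word m d => Shift u v).card ≤ m := by
  have h := Finset.card_le_card_of_injOn (s := Finset.univ.filter fun u : Word m d => Shift u v)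
    (t := (Finset.univ : Finset (Fin m))) (fun u => u ⟨0, by omega⟩)
    (fun _ _ => Finset.mem_univ _) (by
      intro u hu u' hu' h
      have h1 : Shift u v := (Finset.mem_filter.1 hu).2
      have h2 : Shift u' v := (Finset.mem_filter.1 hu').2
      funext i
      by_cases hi : i.val = 0
      · have h3 : i = ⟨0, by omega⟩ := Fin.ext hi
        rw [h3]
        exact h
      · have h3 := h1 ⟨i.val - 1, by omega⟩ i (by show i.val = i.val - 1 + 1; omega)
        have h4 := h2 ⟨i.val - 1, by omega⟩ i (by show i.val = i.val - 1 + 1; omega)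
        rw [← h3, ← h4])
  rwa [Finset.card_univ, Fintype.card_fin] at h

theorem inE_le {m d T : ℕ} (hd : 1 ≤ d) (k : Fin T) (v : Word m d) :
    (inE (ok := Shift (m := m) (d := d)) k v).card ≤ m := by
  refine le_trans ?_ (in_le hd v)
  refine Finset.card_le_card_of_injOn (fun e => e.1.2.1) ?_ ?_
  · intro e he
    have h1 := (Finset.mem_filter.1 he).2
    refine Finset.mem_filter.2 ⟨Finset.mem_univ _, ?_⟩
    have h2 := e.2
    rw [h1.2] at h2
    exact h2
  · intro e he e' he' h
    obtain ⟨_, h2, h3⟩ := Finset.mem_filter.1 he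
    obtain ⟨_, h2', h3'⟩ := Finset.mem_filter.1 he'
    apply Subtype.ext
    exact Prod.ext (h2.trans h2'.symm) (Prod.ext h (h3.trans h3'.symm))

theorem card_word (m d : ℕ) : Fintype.card (Word m d) = m ^ d := by
  show Fintype.card (Fin d → Fin m) = m ^ d
  rw [Fintype.card_fun, Fintype.card_fin, Fintype.card_fin]

variable {S d m : ℕ}

/-- the path of the windows of a coloring -/
def toPath (x : Fin (S + d) → Fin m) : Path S (Shift (m := m) (d := d)) :=
  ⟨fun c i => x ⟨c.val + i.val, by have := c.2; have := i.2; omega⟩, by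
    intro c i j hij
    show x ⟨c.val + 1 + i.val, _⟩ = x ⟨c.val + j.val, _⟩
    congr 1
    apply Fin.ext
    show c.val + 1 + i.val = c.val + j.val
    omega⟩

theorem toPath_bijective (hd : 1 ≤ d) :
    Function.Bijective (toPath (S := S) (d := d) (m := m)) := by
  constructor
  · intro x y h
    funext g
    have h1 : ∀ (c : Fin (S + 1)) (i : Fin d), x ⟨c.val + i.val, by have := c.2; have := i.2; omega⟩ =
        y ⟨c.val + i.val, by have := c.2; have := i.2; omega⟩ := by
      intro c i
      exact congrFun (congrFun (congrArg Subtype.val h) c) i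
    have hg := g.2
    rcases Nat.lt_or_ge g.val (S + 1) with h2 | h2
    · exact h1 ⟨g.val, h2⟩ ⟨0, hd⟩
    · have h3 := h1 ⟨S, by omega⟩ ⟨g.val - S, by omega⟩
      have h4 : (⟨S + (g.val - S), by omega⟩ : Fin (S + d)) = g := Fin.ext (by
        show S + (g.val - S) = g.val
        omega)
      simp only at h3
      rwa [h4] at h3
  · intro φ
    refine ⟨fun g => if h : g.val ≤ S then φ.1 ⟨g.val, by omega⟩ ⟨0, hd⟩ else
      φ.1 ⟨S, by omega⟩ ⟨g.val - S, by have := g.2; omega⟩, ?_⟩
    apply Subtype.ext
    funext c i
    show (if h : c.val + i.val ≤ S then φ.1 ⟨c.val + i.val, by omega⟩ ⟨0, hd⟩ else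
      φ.1 ⟨S, by omega⟩ ⟨c.val + i.val - S, _⟩) = φ.1 c i
    obtain ⟨c, hc⟩ := c
    obtain ⟨i, hi⟩ := i
    simp only
    have key : ∀ (i : ℕ) (hi : i < d) (c : ℕ) (hc : c < S + 1),
        (if h : c + i ≤ S then φ.1 ⟨c + i, by omega⟩ ⟨0, hd⟩ else
          φ.1 ⟨S, by omega⟩ ⟨c + i - S, by omega⟩) = φ.1 ⟨c, hc⟩ ⟨i, hi⟩ := by
      intro i
      induction i with
      | zero =>
        intro hi c hc
        rw [dif_pos (by omega)]
        rfl
      | succ i ih =>
        intro hi c hc
        rcases Nat.lt_or_ge c S with h | h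
        · have h1 := ih (by omega) (c + 1) (by omega)
          have h2 := φ.2 ⟨c, h⟩ ⟨i, by omega⟩ ⟨i + 1, hi⟩ rfl
          have h3 : φ.1 (Fin.succ ⟨c, h⟩) ⟨i, by omega⟩ = φ.1 (Fin.castSucc ⟨c, h⟩) ⟨i + 1, hi⟩ := h2
          have h4 : φ.1 ⟨c + 1, by omega⟩ ⟨i, by omega⟩ = φ.1 ⟨c, hc⟩ ⟨i + 1, hi⟩ := h3
          rw [← h4, ← h1]
          have h5 : c + (i + 1) = c + 1 + i := by omega
          simp only [h5]
        · have h1 : c = S := by omega
          subst h1
          rw [dif_neg (by omega)]
          have h6 : c + (i + 1) - c = i + 1 := by omega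
          simp only [h6]
    exact key i hi c hc

/-- the two variables of an edge of the layered graph -/
def vars (hd : 1 ≤ d) (e : Edge S (Shift (m := m) (d := d))) :
    (Pos S × Fin m × Fin m) × (Pos S × Fin m × Fin m) :=
  ((⟨e.1.1, false⟩, e.1.2.1 ⟨0, hd⟩, e.1.2.2 ⟨0, hd⟩),
    (⟨e.1.1, true⟩, e.1.2.1 ⟨0, hd⟩, e.1.2.2 ⟨d - 1, by omega⟩))

/-- edges as pairs -/
def posEquiv (S : ℕ) : Pos S ≃ Fin S × Bool where
  toFun e := (e.site, e.far)
  invFun e := ⟨e.1, e.2⟩
  left_inv _ := rfl
  right_inv _ := rfl

theorem pathSum_vars {R : Type} [CommSemiring R] (hd : 1 ≤ d)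
    (w : Pos S × Fin m × Fin m → R) :
    pathSum (T := S) (ok := Shift (m := m) (d := d))
      (fun e => w (vars hd e).1 * w (vars hd e).2) = stateSum (lft hd) (rgt hd) w := by
  unfold pathSum stateSum
  symm
  refine Fintype.sum_bijective toPath (toPath_bijective hd) _ _ ?_
  intro x
  rw [← (posEquiv S).symm.prod_comp, Fintype.prod_prod_type]
  refine prod_congr rfl fun k _ => ?_
  rw [Fintype.prod_bool]
  refine (congrArg₂ (· * ·) ?_ ?_).trans (mul_comm _ _)
  · show w _ = w _
    congr 1
    refine Prod.ext rfl (Prod.ext ?_ ?_)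
    · show x _ = x _
      congr 1
    · show x _ = x _
      congr 1
      apply Fin.ext
      show k.val + (if true = true then d else 1) = k.val + 1 + (d - 1)
      rw [if_pos rfl]
      omega
  · show w _ = w _
    congr 1

/-- With `2 m ^ d + 2` registers one can go vertex by vertex. -/
theorem upper_strip (R : Type) [CommSemiring R] (S m : ℕ) (hd : 1 ≤ d) :
    ∃ p : List (Instr R (Pos S × Fin m × Fin m) (Option (Option (Bool × Word m d)))),
      p.length ≤ 3 * ((3 * m + 1) * (S * m ^ d) + 2 * m ^ d + 1) ∧
      ∀ w : Pos S × Fin m × Fin m → R,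
        exec w p (some none) = stateSum (lft hd) (rgt hd) w := by
  obtain ⟨p, h1, h2⟩ := upper R S (Shift (m := m) (d := d)) (inE_le hd)
  rw [card_word] at h1
  refine ⟨p.flatMap (tr (vars hd)), ?_, fun w => ?_⟩
  · exact (subst_length _ p).trans (Nat.mul_le_mul_left _ h1)
  · have h3 : exec w (p.flatMap (tr (vars hd))) (some none) =
        exec (fun e => w (vars hd e).1 * w (vars hd e).2) p none :=
      subst_run w (vars hd) p (fun _ => 0) none
    rw [h3, h2, pathSum_vars]

end Pool.Agent.TH679.SP
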